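import Pool.Agent.Run7.h347.OW.Iface

/-!
# Project OW (helper347), piece T (helper305)
-/

set_option autoImplicit false

open Set Filter Topology Pool.Agent.Results.MP_76989b_gt.NotFrechetUrysohn

namespace Pool.Agent.Run7.h305.OW

open Pool.Agent.Run7.h347.OW

theorem small {X : Type*} [TopologicalSpace X] [T2Space X] (hW : OpenWhyburn X) (G : Set X)
    (hG : IsOpen G) (hne : G.Nonempty) : ∃ (T : Set X) (t : X), IsOpen T ∧ t ∈ T ∧ closure T ⊆ G := by
  obtain ⟨x, hx⟩ := hne
  by_cases hi : IsOpen ({x} : Set X)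
  · refine ⟨{x}, x, hi, mem_singleton x, ?_⟩
    rw [closure_singleton]
    exact singleton_subset_iff.2 hx
  · have hA : IsOpen (G \ {x}) := hG.sdiff isClosed_singleton
    have hxc : x ∈ closure (G \ {x}) := by
      rw [mem_closure_iff]
      intro O hO hxO
      by_contra hcon
      rw [not_nonempty_iff_eq_empty] at hcon
      apply hi
      have h1 : O ∩ G = {x} := by
        ext y
        constructor
        · rintro ⟨h2, h3⟩
          by_contra h4
          have h5 : y ∈ O ∩ (G \ {x}) := ⟨h2, h3, h4⟩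
          rw [hcon] at h5
          exact h5
        · rintro rfl
          exact ⟨hxO, hx⟩
      rw [← h1]
      exact hO.inter hG
    obtain ⟨B, hB, hBA, hcl⟩ := hW (G \ {x}) hA x ⟨hxc, fun h => h.2 rfl⟩
    have hxB : x ∈ closure B := by
      have h1 : x ∈ closure B \ (G \ {x}) := by rw [hcl]; exact mem_singleton x
      exact h1.1
    have hBne : B.Nonempty := by
      rw [← closure_nonempty_iff]
      exact ⟨x, hxB⟩
    obtain ⟨t, ht⟩ := hBne
    refine ⟨B, t, hB, ht, fun y hy => ?_⟩
    by_cases hyA : y ∈ G \ {x}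
    · exact hyA.1
    · have h1 : y ∈ closure B \ (G \ {x}) := ⟨hy, hyA⟩
      rw [hcl, mem_singleton_iff] at h1
      rw [h1]
      exact hx

theorem t_T (X : Type*) [TopologicalSpace X] : S_T X := by
  intro _ _ hW
  obtain ⟨G, hinf, hopen, hdis⟩ := exists_seq_infinite_isOpen_pairwise_disjoint X
  choose T t h1 h2 h3 using fun j => small hW (G j) (hopen j) (hinf j).nonempty
  refine ⟨T, t, h1, h2, fun i j hij => ?_⟩
  exact (hdis hij).mono (h3 i) (h3 j)

end Pool.Agent.Run7.h305.OW
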